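import Pool.Agent.R693.W.Gen

/-!
# The ascending chain conditions on prime and semiprime ideals for `U(W)`

The enveloping algebra of the Witt algebra over a field of characteristic zero satisfies the ascending
chain condition on semiprime ideals, in particular on prime ideals: questions (a) and (b).

Idea (see `Pool/Agent/R693/W`).  Let `x m = t^m ∂`, and let the group algebra of shift operators act on
functions of several indices.  Every nonzero ideal `I` contains, for some `d` and `N`, all values of
`Δ^N (x (n 0) ⋯ x (n (d-1)))`, with `Δ` the discriminant `∏ (X_i - X_j)` of the shifts.  Applying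
`Δ^N` to products of `d - 1` generators gives elements `η n`.  Modulo an ideal containing the values for
`d`, the functions `n ↦ u η n`, `u` in the algebra, generate a Noetherian object under the shifts, the
derivations and left multiplication, so the sets `I_i η` stabilise along a chain of ideals.  A prime
ideal containing `I_n` either contains all values of `η` (induction on `d`) or contains every `I_m`.
-/

set_option autoImplicit false

namespace Pool.Agent.Results.MP_e28a79_al.ChainSemiprime

open Pool.Agent.R693

universe u v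

/-- `L` is the Witt algebra: it has a basis `e_n`, `n ∈ ℤ`, with `[e_m, e_n] = (m - n) e_{m + n}`. -/
def IsWitt (F : Type u) [Field F] (L : Type v) [LieRing L] [LieAlgebra F L] : Prop :=
  ∃ b : Module.Basis ℤ F L, ∀ m n : ℤ, ⁅b m, b n⁆ = ((m - n : ℤ) : F) • b (m + n)

/-- A two-sided ideal `P` is prime if it is proper and `I J ⊆ P` implies `I ⊆ P` or `J ⊆ P` for
two-sided ideals `I`, `J`. -/
def IsPrime {A : Type u} [Ring A] (P : TwoSidedIdeal A) : Prop :=
  P ≠ ⊤ ∧ ∀ I J : TwoSidedIdeal A, (∀ a ∈ I, ∀ b ∈ J, a * b ∈ P) → I ≤ P ∨ J ≤ P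

/-- A two-sided ideal `S` is semiprime if `I ^ 2 ⊆ S` implies `I ⊆ S` for two-sided ideals `I`. -/
def IsSemiprime {A : Type u} [Ring A] (S : TwoSidedIdeal A) : Prop :=
  ∀ I : TwoSidedIdeal A, (∀ a ∈ I, ∀ b ∈ I, a * b ∈ S) → I ≤ S

/-- The ascending chain condition on a class of two-sided ideals. -/
def ACC {A : Type u} [Ring A] (C : TwoSidedIdeal A → Prop) : Prop :=
  ∀ I : ℕ → TwoSidedIdeal A, Monotone I → (∀ i, C (I i)) → ∃ n, ∀ m, n ≤ m → I m = I n

section
attribute [local instance 100] LieRing.ofAssociativeRing

variable {F : Type u} [Field F] {L : Type v} [LieRing L] [LieAlgebra F L]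

lemma iota_comm (x y : L) : UniversalEnvelopingAlgebra.ι F x * UniversalEnvelopingAlgebra.ι F y -
    UniversalEnvelopingAlgebra.ι F y * UniversalEnvelopingAlgebra.ι F x =
      UniversalEnvelopingAlgebra.ι F ⁅x, y⁆ := by
  rw [LieHom.map_lie, LieRing.of_associative_ring_bracket]

lemma acc_witt [CharZero F] (h : IsWitt F L) (I : ℕ → TwoSidedIdeal (UniversalEnvelopingAlgebra F L))
    (hI : Monotone I) (hsp : ∀ i, IsSemiprime (I i)) : ∃ n, ∀ m, n ≤ m → I m = I n := by
  obtain ⟨b, hb⟩ := h
  have hW : W.IsW F (fun n : ℤ => - UniversalEnvelopingAlgebra.ι F (b (n - 1))) := by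
    intro m n j hmn
    beta_reduce
    have h2 : (W.Lab.one : ℤ) = 1 := rfl
    have h3 : ∀ k : ℤ, (W.Lab.c k : ℤ) = k := fun k => rfl
    rw [h2] at hmn
    rw [neg_mul_neg, neg_mul_neg, iota_comm, hb, map_smul, h3, h3, smul_neg, ← neg_smul]
    congr 2
    · push_cast
      ring
    · congr 1
      omega
  refine W.acc_semiprime (F := F) hW (W.span_of_adjoin ?_) I hI hsp
  rw [eq_top_iff, ← W.uea_adjoin_basis F b, Algebra.adjoin_le_iff]
  rintro _ ⟨i, rfl⟩
  have h1 : - UniversalEnvelopingAlgebra.ι F (b (i + 1 - 1)) ∈ Algebra.adjoin F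
      (Set.range fun n : ℤ => - UniversalEnvelopingAlgebra.ι F (b (n - 1))) :=
    Algebra.subset_adjoin ⟨i + 1, rfl⟩
  have h2 := Subalgebra.neg_mem _ h1
  rwa [neg_neg, add_sub_cancel_right] at h2

end

/-- The enveloping algebra of the Witt algebra over a field of characteristic zero satisfies the
ascending chain conditions on prime ideals and on semiprime ideals. -/
theorem result (F : Type u) [Field F] [CharZero F] (L : Type v) [LieRing L] [LieAlgebra F L]
    (hL : IsWitt F L) :
    ACC (fun P : TwoSidedIdeal (UniversalEnvelopingAlgebra F L) => IsPrime P) ∧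
      ACC (fun S : TwoSidedIdeal (UniversalEnvelopingAlgebra F L) => IsSemiprime S) :=
  ⟨fun I hI hp => acc_witt hL I hI fun i J hJ => by rcases (hp i).2 J J hJ with h | h <;> exact h,
    fun I hI hp => acc_witt hL I hI hp⟩

end Pool.Agent.Results.MP_e28a79_al.ChainSemiprime
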